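import Mathlib
import Pool.Agent.R877.CY.Final

/-!
# MP_7b9a49_nt: `B(n)` is not always the height of `P_odd(n)` or of `P_even(n)`

For the squarefree number `n = 10374 = 2 * 3 * 7 * 13 * 19` both `P_odd(n)` and `P_even(n)` have
height at most `8415683487216`, while the divisor `(x - 1) P_odd(n)` of `x ^ n - 1` has the
coefficient `9401697462912` at `x ^ 2590`.

The coefficients are read off, by kernel computation, from the value of the polynomials at
`2 ^ 128` (a quotient of products of numbers `2 ^ (128 e) - 1`).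
-/

namespace Pool.Agent.Results.MP_7b9a49_nt.DisproofAt10374

open Polynomial

/-- The height: the largest absolute value of a coefficient. -/
def height (f : ℤ[X]) : ℕ := f.support.sup (fun i => (f.coeff i).natAbs)

/-- `B(n)`: the largest height of a divisor of `x ^ n - 1` in `ℤ[x]` (the supremum of a finite set
for `n ≥ 1`). -/
noncomputable def B (n : ℕ) : ℕ := sSup {h : ℕ | ∃ f : ℤ[X], f ∣ X ^ n - 1 ∧ h = height f}

/-- The product of the cyclotomic polynomials `Φ_d` over the divisors `d` of `n` with an odd number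
of distinct prime factors. -/
noncomputable def Podd (n : ℕ) : ℤ[X] :=
  ∏ d ∈ n.divisors with Odd d.primeFactors.card, cyclotomic d ℤ

/-- The product of the cyclotomic polynomials `Φ_d` over the divisors `d` of `n` with an even number
of distinct prime factors. -/
noncomputable def Peven (n : ℕ) : ℤ[X] :=
  ∏ d ∈ n.divisors with Even d.primeFactors.card, cyclotomic d ℤ

theorem le_height (f : ℤ[X]) (i : ℕ) : (f.coeff i).natAbs ≤ height f := by
  by_cases h : f.coeff i = 0
  · rw [h]; simp
  · exact Finset.le_sup (f := fun i => (f.coeff i).natAbs) (mem_support_iff.mpr h)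

theorem height_le (f : ℤ[X]) (C : ℕ) (h : ∀ i, (f.coeff i).natAbs ≤ C) : height f ≤ C :=
  Finset.sup_le fun i _ => h i

theorem finite_dvd (n : ℕ) (hn : 0 < n) : {f : ℤ[X] | f ∣ X ^ n - 1}.Finite := by
  classical
  have hm : (X ^ n - 1 : ℤ[X]).Monic := monic_X_pow_sub_C 1 hn.ne'
  have hfin : {g : ℤ[X] | g.Monic ∧ g ∣ X ^ n - 1}.Finite := by
    have h : Finite {g : ℤ[X] // g.Monic ∧ g ∣ X ^ n - 1} :=
      @Finite.of_fintype _ (Polynomial.fintypeSubtypeMonicDvd (X ^ n - 1 : ℤ[X]) hm.ne_zero)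
    exact h
  refine (hfin.union (hfin.image (fun g => -g))).subset ?_
  intro f hf
  obtain ⟨q, hq⟩ := hf
  have h1 : f.leadingCoeff * q.leadingCoeff = 1 := by
    rw [← leadingCoeff_mul, ← hq]
    exact hm
  rcases Int.eq_one_or_neg_one_of_mul_eq_one h1 with h2 | h2
  · exact Or.inl ⟨h2, q, hq⟩
  · refine Or.inr ⟨-f, ⟨?_, ?_⟩, neg_neg f⟩
    · show (-f).leadingCoeff = 1
      rw [leadingCoeff_neg, h2, neg_neg]
    · rw [neg_dvd]
      exact ⟨q, hq⟩

theorem height_le_B (n : ℕ) (hn : 0 < n) (f : ℤ[X]) (hf : f ∣ X ^ n - 1) : height f ≤ B n := by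
  apply le_csSup
  · apply Set.Finite.bddAbove
    have : {h : ℕ | ∃ f : ℤ[X], f ∣ X ^ n - 1 ∧ h = height f} =
        height '' {f : ℤ[X] | f ∣ X ^ n - 1} := by
      ext h
      constructor
      · rintro ⟨f, h1, rfl⟩
        exact ⟨f, h1, rfl⟩
      · rintro ⟨f, h1, rfl⟩
        exact ⟨f, h1, rfl⟩
    rw [this]
    exact (finite_dvd n hn).image _
  · exact ⟨f, hf, rfl⟩

theorem squarefree_10374 : Squarefree 10374 := by
  decide +kernel

theorem dvd_aux (n : ℕ) (h : n = Pool.Agent.R877.CY.N) : (X - 1) * Podd n ∣ X ^ n - 1 := by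
  subst h
  exact Pool.Agent.R877.CY.f_dvd

/-- For `n = 10374 = 2 * 3 * 7 * 13 * 19` some divisor of `x ^ n - 1` has a larger height than both
`P_odd(n)` and `P_even(n)`; so `B(n)` is different from both `H(P_odd(n))` and `H(P_even(n))`. -/
theorem result :
    Squarefree 10374 ∧
    (∃ f : ℤ[X], f ∣ X ^ 10374 - 1 ∧ height (Podd 10374) < height f ∧
      height (Peven 10374) < height f) ∧
    height (Podd 10374) < B 10374 ∧ height (Peven 10374) < B 10374 ∧
    ¬ ∀ n : ℕ, 1 < n → Squarefree n → B n = height (Podd n) ∨ B n = height (Peven n) := by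
  have hO : height (Podd 10374) ≤ Pool.Agent.R877.CY.C := height_le _ _ Pool.Agent.R877.CY.Podd_le
  have hE : height (Peven 10374) ≤ Pool.Agent.R877.CY.C := height_le _ _ Pool.Agent.R877.CY.Peven_le
  have hf : 9401697462912 ≤ height ((X - 1) * Podd 10374) := by
    have h1 := le_height ((X - 1) * Podd 10374) 2590
    have h2 : ((X - 1) * Podd 10374).coeff 2590 = 9401697462912 := Pool.Agent.R877.CY.coeff_f
    rw [h2] at h1
    exact h1
  have hC : Pool.Agent.R877.CY.C < 9401697462912 := by decide +kernel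
  have hd : (X - 1) * Podd 10374 ∣ X ^ 10374 - 1 := dvd_aux 10374 rfl
  have hB := height_le_B 10374 (by norm_num) _ hd
  have h3 := lt_of_le_of_lt hO (lt_of_lt_of_le hC hf)
  have h4 := lt_of_le_of_lt hE (lt_of_lt_of_le hC hf)
  refine ⟨squarefree_10374, ⟨_, hd, h3, h4⟩, lt_of_lt_of_le h3 hB, lt_of_lt_of_le h4 hB, ?_⟩
  intro H
  rcases H 10374 (by norm_num) squarefree_10374 with h | h
  · exact absurd h (lt_of_lt_of_le h3 hB).ne'
  · exact absurd h (lt_of_lt_of_le h4 hB).ne'

end Pool.Agent.Results.MP_7b9a49_nt.DisproofAt10374
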